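import Mathlib

set_option autoImplicit false

namespace Pool.Agent.Results.MP_83c1a8_pr.Counter

open Finset SimpleGraph

/-- The spanning trees of `G`, as edge sets. -/
def trees {n : ℕ} (G : SimpleGraph (Fin n)) : Set (Finset (Sym2 (Fin n))) :=
  {F | (F : Set (Sym2 (Fin n))) ⊆ G.edgeSet ∧ (fromEdgeSet (F : Set (Sym2 (Fin n)))).IsTree}

/-- The `2`-forests of `G`: acyclic edge sets of `G` with `|V| - 2` edges. -/
def twoForests {n : ℕ} (G : SimpleGraph (Fin n)) : Set (Finset (Sym2 (Fin n))) :=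
  {F | (F : Set (Sym2 (Fin n))) ⊆ G.edgeSet ∧ (fromEdgeSet (F : Set (Sym2 (Fin n)))).IsAcyclic ∧
    F.card + 2 = n}

/-- The probability that a uniform member of the family `S` of edge sets contains `e`. -/
noncomputable def prob {n : ℕ} (S : Set (Finset (Sym2 (Fin n)))) (e : Sym2 (Fin n)) : ℚ :=
  ({F ∈ S | e ∈ F}.ncard : ℚ) / S.ncard

def G : SimpleGraph (Fin 7) where
  Adj u v := u ≠ v ∧ (u < 2 ∨ v < 2)
  symm := ⟨fun _ _ h => ⟨h.1.symm, h.2.symm⟩⟩
  loopless := ⟨fun _ h => h.1 rfl⟩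

instance : DecidableRel G.Adj := fun u v => inferInstanceAs (Decidable (u ≠ v ∧ (u < 2 ∨ v < 2)))

theorem const {V : Type} (K : SimpleGraph V) (S : V → Prop) (h : ∀ a b, K.Adj a b → S a → S b)
    {u v : V} (r : K.Reachable u v) (hu : S u) : S v := by
  obtain ⟨p⟩ := r
  induction p with
  | nil => exact hu
  | cons a _ ih => exact ih (h _ _ a hu)

theorem bridge (H : SimpleGraph (Fin 7)) (c d w : Fin 7) (hH : ∀ a b, H.Adj a b →
    a = c ∨ a = d ∨ b = c ∨ b = d) (hw : H.Adj c w)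
    (h : ∀ u, H.Adj c u → H.Adj d u → ¬H.Adj c d ∧ ∀ v, H.Adj c v → H.Adj d v → u = v) :
    H.IsBridge s(c, w) := by
  intro r
  by_cases hd : w = d ∨ H.Adj d w
  · have := const _ (fun x => x = c ∨ (H.Adj c x ∧ x ≠ w)) (fun a b hab ha => ?_) r (.inl rfl)
    · rcases this with h1 | h1
      exacts [hw.ne h1.symm, h1.2 rfl]
    simp only [deleteEdges_adj, Set.mem_singleton_iff] at hab
    obtain ⟨hab, hne⟩ := hab
    rcases ha with rfl | ⟨h1, h2⟩
    · exact .inr ⟨hab, fun e => hne (e ▸ rfl)⟩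
    rcases hH a b hab with rfl | rfl | rfl | rfl
    · exact (h1.ne rfl).elim
    · exact ((h w hw (hd.resolve_left h2.symm)).1 h1).elim
    · exact .inl rfl
    · rcases hd with rfl | hd
      · exact ((h a h1 hab.symm).1 hw).elim
      · exact (h2 ((h a h1 hab.symm).2 w hw hd)).elim
  · refine const _ (fun x => x ≠ w) (fun a b hab _ e => ?_) r hw.ne rfl
    simp only [deleteEdges_adj, Set.mem_singleton_iff] at hab
    obtain ⟨hab, hne⟩ := hab
    subst e
    rcases hH a b hab with rfl | rfl | rfl | rfl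
    exacts [hne rfl, hd (.inr hab), hw.ne rfl, hd (.inl rfl)]

theorem acyc (H : SimpleGraph (Fin 7)) (hH : H ≤ G) : H.IsAcyclic ↔
    ∀ u, H.Adj 0 u → H.Adj 1 u → ¬H.Adj 0 1 ∧ ∀ v, H.Adj 0 v → H.Adj 1 v → u = v := by
  have h0 : ∀ a b, G.Adj a b → a = 0 ∨ a = 1 ∨ b = 0 ∨ b = 1 := by decide
  constructor
  · intro h u h1 h2
    have key : ∀ p : H.Walk 0 1, p.IsPath → Walk.cons h1 (.cons h2.symm .nil) = p := fun p hp =>
      congrArg Subtype.val ((h.subsingleton_path 0 1).elim ⟨_, by simp [h1.ne, h2.ne']⟩ ⟨p, hp⟩)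
    refine ⟨fun h3 => ?_, fun v h3 h4 => ?_⟩
    · simpa using congrArg Walk.length (key (.cons h3 .nil) (by simp))
    · simpa using congrArg Walk.support
        (key (.cons h3 (.cons h4.symm .nil)) (by simp [h3.ne, h4.ne']))
  · intro h
    have b0 := fun w hw => bridge H 0 1 w (fun a b hab => h0 a b (hH hab)) hw h
    have b1 := fun w hw => bridge H 1 0 w (fun a b hab => by have := h0 a b (hH hab); tauto) hw
      fun u h1 h2 => ⟨fun h3 => (h u h2 h1).1 h3.symm, fun v h3 h4 => (h u h2 h1).2 v h4 h3⟩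
    rw [isAcyclic_iff_forall_isBridge]
    rintro ⟨a, b⟩ hab
    rcases h0 a b (hH hab) with rfl | rfl | rfl | rfl
    exacts [b0 b hab, b1 b hab, (Sym2.eq_swap (a := 0) (b := a)).subst (b0 a (H.adj_symm hab)),
      (Sym2.eq_swap (a := 1) (b := a)).subst (b1 a (H.adj_symm hab))]

def E : Finset (Sym2 (Fin 7)) :=
  {s(0, 1), s(0, 2), s(0, 3), s(0, 4), s(0, 5), s(0, 6), s(1, 2), s(1, 3), s(1, 4), s(1, 5), s(1, 6)}

def L (j : ℕ) : Finset (Finset (Sym2 (Fin 7))) := (E.powersetCard j).filter fun F =>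
  ∀ u, s(0, u) ∈ F → s(1, u) ∈ F → s(0, 1) ∉ F ∧ ∀ v, s(0, v) ∈ F → s(1, v) ∈ F → u = v

theorem hE : G.edgeSet = E := by
  ext ⟨a, b⟩
  revert a b
  change ∀ a b, G.Adj a b ↔ s(a, b) ∈ E
  decide

theorem adj_iff (F : Finset (Sym2 (Fin 7))) (hF : (F : Set (Sym2 (Fin 7))) ⊆ G.edgeSet)
    (a b : Fin 7) : (fromEdgeSet (F : Set (Sym2 (Fin 7)))).Adj a b ↔ s(a, b) ∈ F :=
  ⟨fun h => h.1, fun h => ⟨h, G.ne_of_adj (hF h)⟩⟩

theorem mem_L (j : ℕ) (F : Finset (Sym2 (Fin 7))) : F ∈ L j ↔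
    (F : Set (Sym2 (Fin 7))) ⊆ G.edgeSet ∧ (fromEdgeSet (F : Set (Sym2 (Fin 7)))).IsAcyclic ∧
      F.card = j := by
  simp only [L, mem_filter, mem_powersetCard, ← coe_subset, ← hE]
  rw [and_assoc, and_comm (b := F.card = j)]
  refine and_congr_right fun hF => and_congr_right fun _ => ?_
  rw [acyc (fromEdgeSet (F : Set (Sym2 (Fin 7)))) fun a b h => hF h.1]
  simp only [adj_iff F hF]

theorem two_eq : twoForests G = L 5 := by
  ext F
  rw [mem_coe, mem_L, show F.card = 5 ↔ F.card + 2 = 7 by omega]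
  rfl

theorem trees_eq : trees G = L 6 := by
  ext F
  rw [mem_coe, mem_L]
  refine and_congr_right fun h1 => ?_
  have h4 : (fromEdgeSet (F : Set (Sym2 (Fin 7)))).edgeSet = F := by
    ext ⟨a, b⟩
    exact adj_iff F h1 a b
  constructor
  · refine fun h2 => ⟨h2.isAcyclic, ?_⟩
    have h3 := (isTree_iff_connected_and_card.1 h2).2
    rw [h4] at h3
    simpa using h3
  · rintro ⟨h2, h3⟩
    obtain ⟨T, h5, -, h6⟩ := connected_top.exists_isTree_le_of_le_of_isAcyclic le_top h2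
    have h7 := (isTree_iff_connected_and_card.1 h6).2
    rw [Nat.card_coe_set_eq, Nat.card_eq_fintype_card, Fintype.card_fin] at h7
    rwa [edgeSet_injective (Set.eq_of_subset_of_ncard_le (edgeSet_mono h5)
      (by rw [h4, Set.ncard_coe_finset]; omega))]

theorem prob_eq (j : ℕ) : prob (L j : Set (Finset (Sym2 (Fin 7)))) s(0, 1) =
    ((L j).filter fun F => s(0, 1) ∈ F).card / (L j).card := by
  rw [prob, Set.ncard_coe_finset, ← Set.ncard_coe_finset (filter _ _), coe_filter]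
  rfl

theorem result : ∃ (n : ℕ) (G : SimpleGraph (Fin n)) (e : Sym2 (Fin n)), G.Connected ∧ 2 ≤ n ∧
    n + 2 ≤ G.edgeSet.ncard ∧ e ∈ G.edgeSet ∧ prob (trees G) e < prob (twoForests G) e := by
  refine ⟨7, G, s(0, 1), ?_, by norm_num, ?_, by decide, ?_⟩
  · rw [connected_iff_exists_forall_reachable]
    refine ⟨0, fun w => ?_⟩
    rcases eq_or_ne 0 w with rfl | h
    exacts [.refl _, Adj.reachable ⟨h, .inl (by decide)⟩]
  · rw [hE, Set.ncard_coe_finset]
    decide
  · rw [trees_eq, two_eq, prob_eq, prob_eq,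
      show ((L 6).filter fun F => s(0, 1) ∈ F).card = 32 by decide +kernel,
      show ((L 5).filter fun F => s(0, 1) ∈ F).card = 80 by decide +kernel,
      show (L 6).card = 112 by decide +kernel, show (L 5).card = 272 by decide +kernel]
    norm_num

end Pool.Agent.Results.MP_83c1a8_pr.Counter
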